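import Mathlib
import Pool.Agent.Y767.CC.Ex
import Pool.Agent.Results.MP_3b1797_co.RegularCounterexample

/-!
# Ordinal sums of a regular ordered set and a well-order with a greatest element
-/

namespace Pool.Agent.Y767.MC

open Pool.Agent.Results.MP_3b1797_co.RegularCounterexample Cardinal

section

variable {P ι : Type} [PartialOrder P] [LinearOrder ι]

theorem inl_le {a b : P} : toLex (Sum.inl a : P ⊕ ι) ≤ toLex (Sum.inl b) ↔ a ≤ b :=
  Sum.Lex.inl_le_inl_iff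

theorem inl_lt {a b : P} : toLex (Sum.inl a : P ⊕ ι) < toLex (Sum.inl b) ↔ a < b :=
  Sum.Lex.inl_lt_inl_iff

theorem inr_le {a b : ι} : toLex (Sum.inr a : P ⊕ ι) ≤ toLex (Sum.inr b) ↔ a ≤ b :=
  Sum.Lex.inr_le_inr_iff

theorem inr_lt {a b : ι} : toLex (Sum.inr a : P ⊕ ι) < toLex (Sum.inr b) ↔ a < b :=
  Sum.Lex.inr_lt_inr_iff

theorem inl_lt_inr (a : P) (b : ι) : toLex (Sum.inl a : P ⊕ ι) < toLex (Sum.inr b) :=
  Sum.Lex.inl_lt_inr a b

theorem not_inr_le (a : P) (b : ι) : ¬ toLex (Sum.inr b : P ⊕ ι) ≤ toLex (Sum.inl a) :=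
  not_le_of_gt (inl_lt_inr a b)

theorem cases_lex (x : Lex (P ⊕ ι)) :
    (∃ p : P, x = toLex (Sum.inl p)) ∨ ∃ i : ι, x = toLex (Sum.inr i) := by
  induction x using Lex.rec with
  | _ x =>
    rcases x with x | x
    · exact Or.inl ⟨x, rfl⟩
    · exact Or.inr ⟨x, rfl⟩

theorem regular_sum [WellFoundedLT ι] [OrderTop ι] (hP : IsRegular P) :
    IsRegular (Lex (P ⊕ ι)) := by
  classical
  intro C hC hne
  constructor
  · by_cases hr : ∃ i : ι, toLex (Sum.inr i : P ⊕ ι) ∈ C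
    · obtain ⟨i, hi⟩ := hr
      let U : Set ι := {j | ∀ k, toLex (Sum.inr k : P ⊕ ι) ∈ C → k ≤ j}
      have hU : U.Nonempty := ⟨⊤, fun k _ => le_top⟩
      let s : ι := WellFounded.min (wellFounded_lt (α := ι)) U hU
      have hs : s ∈ U := WellFounded.min_mem _ U hU
      have hmin : ∀ j, j < s → j ∉ U := fun j hj hjU =>
        WellFounded.not_lt_min _ U hjU hj
      refine ⟨toLex (Sum.inr s), ⟨?_, ?_⟩, ?_⟩
      · intro y hy
        rcases cases_lex y with ⟨p, rfl⟩ | ⟨k, rfl⟩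
        · exact (inl_lt_inr p s).le
        · exact inr_le.2 (hs k hy)
      · intro y hy
        rcases cases_lex y with ⟨p, rfl⟩ | ⟨k, rfl⟩
        · exact absurd (hy hi) (not_inr_le p i)
        · rw [inr_le]
          by_contra hlt
          exact hmin k (not_le.1 hlt) fun l hl => inr_le.1 (hy hl)
      · intro x hx
        rcases cases_lex x with ⟨p, rfl⟩ | ⟨k, rfl⟩
        · exact ⟨_, hi, inl_lt_inr p i⟩
        · have h1 := hmin k (inr_lt.1 hx)
          have h2 : ∃ l, toLex (Sum.inr l : P ⊕ ι) ∈ C ∧ ¬ l ≤ k := by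
            by_contra hcon
            push Not at hcon
            exact h1 hcon
          obtain ⟨l, hl, hlk⟩ := h2
          exact ⟨_, hl, inr_lt.2 (not_le.1 hlk)⟩
    · have hC1 : IsChain (· ≤ ·) {p : P | toLex (Sum.inl p : P ⊕ ι) ∈ C} := by
        intro a ha b hb _
        have h := hC.total ha hb
        rwa [inl_le, inl_le] at h
      have hne1 : {p : P | toLex (Sum.inl p : P ⊕ ι) ∈ C}.Nonempty := by
        obtain ⟨y, hy⟩ := hne
        rcases cases_lex y with ⟨p, rfl⟩ | ⟨k, rfl⟩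
        · exact ⟨p, hy⟩
        · exact absurd ⟨k, hy⟩ hr
      obtain ⟨⟨s, hs, hs'⟩, -⟩ := hP _ hC1 hne1
      refine ⟨toLex (Sum.inl s), ⟨?_, ?_⟩, ?_⟩
      · intro y hy
        rcases cases_lex y with ⟨p, rfl⟩ | ⟨k, rfl⟩
        · exact inl_le.2 (hs.1 hy)
        · exact absurd ⟨k, hy⟩ hr
      · intro y hy
        rcases cases_lex y with ⟨p, rfl⟩ | ⟨k, rfl⟩
        · exact inl_le.2 (hs.2 fun q hq => inl_le.1 (hy hq))
        · exact (inl_lt_inr s k).le
      · intro x hx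
        rcases cases_lex x with ⟨p, rfl⟩ | ⟨k, rfl⟩
        · obtain ⟨c, hc, hpc⟩ := hs' p (inl_lt.1 hx)
          exact ⟨_, hc, inl_lt.2 hpc⟩
        · exact absurd hx.le (not_inr_le s k)
  · by_cases hl : ∃ p : P, toLex (Sum.inl p : P ⊕ ι) ∈ C
    · obtain ⟨p0, hp0⟩ := hl
      have hC1 : IsChain (· ≤ ·) {p : P | toLex (Sum.inl p : P ⊕ ι) ∈ C} := by
        intro a ha b hb _
        have h := hC.total ha hb
        rwa [inl_le, inl_le] at h
      obtain ⟨-, ⟨s, hs, hs'⟩⟩ := hP _ hC1 ⟨p0, hp0⟩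
      refine ⟨toLex (Sum.inl s), ⟨?_, ?_⟩, ?_⟩
      · intro y hy
        rcases cases_lex y with ⟨p, rfl⟩ | ⟨k, rfl⟩
        · exact inl_le.2 (hs.1 hy)
        · exact (inl_lt_inr s k).le
      · intro y hy
        rcases cases_lex y with ⟨p, rfl⟩ | ⟨k, rfl⟩
        · exact inl_le.2 (hs.2 fun q hq => inl_le.1 (hy hq))
        · exact absurd (hy hp0) (not_inr_le p0 k)
      · intro x hx
        rcases cases_lex x with ⟨p, rfl⟩ | ⟨k, rfl⟩
        · obtain ⟨c, hc, hpc⟩ := hs' p (inl_lt.1 hx)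
          exact ⟨_, hc, inl_lt.2 hpc⟩
        · exact ⟨_, hp0, inl_lt_inr p0 k⟩
    · have hne2 : {i : ι | toLex (Sum.inr i : P ⊕ ι) ∈ C}.Nonempty := by
        obtain ⟨y, hy⟩ := hne
        rcases cases_lex y with ⟨p, rfl⟩ | ⟨k, rfl⟩
        · exact absurd ⟨p, hy⟩ hl
        · exact ⟨k, hy⟩
      let s : ι := WellFounded.min (wellFounded_lt (α := ι)) _ hne2
      have hs : toLex (Sum.inr s : P ⊕ ι) ∈ C := WellFounded.min_mem (wellFounded_lt (α := ι)) _ hne2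
      have hmin : ∀ k, toLex (Sum.inr k : P ⊕ ι) ∈ C → s ≤ k := fun k hk =>
        not_lt.1 (WellFounded.not_lt_min (wellFounded_lt (α := ι)) _ hk)
      refine ⟨toLex (Sum.inr s), ⟨?_, ?_⟩, ?_⟩
      · intro y hy
        rcases cases_lex y with ⟨p, rfl⟩ | ⟨k, rfl⟩
        · exact absurd ⟨p, hy⟩ hl
        · exact inr_le.2 (hmin k hy)
      · intro y hy
        exact hy hs
      · intro x hx
        exact ⟨_, hs, hx⟩

/-- every element of the upper part lies on every maximal chain -/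
theorem inr_mem {C : Set (Lex (P ⊕ ι))} (hC : IsMaxChain (· ≤ ·) C) (i : ι) :
    toLex (Sum.inr i : P ⊕ ι) ∈ C := by
  refine mem_of_comparable hC fun y _ => ?_
  rcases cases_lex y with ⟨p, rfl⟩ | ⟨k, rfl⟩
  · exact Or.inr (inl_lt_inr p i).le
  · rcases le_total i k with h | h
    · exact Or.inl (inr_le.2 h)
    · exact Or.inr (inr_le.2 h)

theorem single' {K : Set (Lex (P ⊕ ι))} (hK : IsMinimalCutset K) {i : ι}
    (hi : toLex (Sum.inr i : P ⊕ ι) ∈ K) : K = {toLex (Sum.inr i : P ⊕ ι)} := by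
  refine Set.Subset.antisymm (fun x hx => ?_) (by rintro x rfl; exact hi)
  by_contra hne
  refine hK.2 x hx fun C hC => ⟨toLex (Sum.inr i), ⟨hi, ?_⟩, inr_mem hC i⟩
  intro h
  exact hne h.symm

theorem maxChain_up {C : Set P} (hC : IsMaxChain (· ≤ ·) C) :
    IsMaxChain (· ≤ ·) ((fun p : P => toLex (Sum.inl p : P ⊕ ι)) '' C ∪
      Set.range fun i : ι => toLex (Sum.inr i : P ⊕ ι)) := by
  constructor
  · rintro x (⟨a, ha, rfl⟩ | ⟨i, rfl⟩) y (⟨b, hb, rfl⟩ | ⟨j, rfl⟩) _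
    · have := hC.1.total ha hb
      show toLex (Sum.inl a : P ⊕ ι) ≤ toLex (Sum.inl b) ∨
        toLex (Sum.inl b : P ⊕ ι) ≤ toLex (Sum.inl a)
      rwa [inl_le, inl_le]
    · exact Or.inl (inl_lt_inr a j).le
    · exact Or.inr (inl_lt_inr b i).le
    · rcases le_total i j with h | h
      · exact Or.inl (inr_le.2 h)
      · exact Or.inr (inr_le.2 h)
  · intro D hD hsub
    refine Set.Subset.antisymm hsub fun y hy => ?_
    rcases cases_lex y with ⟨p, rfl⟩ | ⟨k, rfl⟩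
    · refine Or.inl ⟨p, mem_of_comparable hC fun q hq => ?_, rfl⟩
      have h := hD.total hy (hsub (Or.inl ⟨q, hq, rfl⟩))
      rcases h with h | h
      · exact Or.inl (inl_le.1 h)
      · exact Or.inr (inl_le.1 h)
    · exact Or.inr ⟨k, rfl⟩

theorem minimal_down {K : Set (Lex (P ⊕ ι))} (hK : IsMinimalCutset K)
    (hno : ∀ i : ι, toLex (Sum.inr i : P ⊕ ι) ∉ K) :
    IsMinimalCutset {p : P | toLex (Sum.inl p : P ⊕ ι) ∈ K} := by
  constructor
  · intro C hC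
    obtain ⟨y, hyK, hy⟩ := hK.1 _ (maxChain_up (ι := ι) hC)
    rcases hy with ⟨p, hp, rfl⟩ | ⟨i, rfl⟩
    · exact ⟨p, hyK, hp⟩
    · exact absurd hyK (hno i)
  · intro x hx hcut
    refine hK.2 _ hx fun C hC => ?_
    obtain ⟨q, ⟨hqK, hqx⟩, hqC⟩ := hcut _ (Pool.Agent.Y767.CC.isMaxChain_inl hC)
    refine ⟨toLex (Sum.inl q), ⟨hqK, fun h => hqx ?_⟩, hqC⟩
    exact Sum.inl_injective (toLex.injective h)

theorem singleton_sum (hP : ∀ K : Set P, IsMinimalCutset K → ∃ x, K = {x})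
    (K : Set (Lex (P ⊕ ι))) (hK : IsMinimalCutset K) : ∃ x, K = {x} := by
  by_cases hr : ∃ i : ι, toLex (Sum.inr i : P ⊕ ι) ∈ K
  · obtain ⟨i, hi⟩ := hr
    exact ⟨_, single' hK hi⟩
  · push Not at hr
    obtain ⟨x, hx⟩ := hP _ (minimal_down hK hr)
    refine ⟨toLex (Sum.inl x), Set.Subset.antisymm (fun y hy => ?_) ?_⟩
    · rcases cases_lex y with ⟨p, rfl⟩ | ⟨k, rfl⟩
      · have : p ∈ {p : P | toLex (Sum.inl p : P ⊕ ι) ∈ K} := hy
        rw [hx] at this
        rw [Set.mem_singleton_iff.1 this]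
        rfl
      · exact absurd hy (hr k)
    · rintro y rfl
      have : x ∈ {p : P | toLex (Sum.inl p : P ⊕ ι) ∈ K} := by
        rw [hx]
        rfl
      exact this

theorem containsN_sum (h : ContainsN P) : ContainsN (Lex (P ⊕ ι)) := by
  obtain ⟨a, b, c, d, h1, h2, h3, ⟨h4, h5⟩, ⟨h6, h7⟩, ⟨h8, h9⟩⟩ := h
  refine ⟨toLex (Sum.inl a), toLex (Sum.inl b), toLex (Sum.inl c), toLex (Sum.inl d),
    inl_lt.2 h1, ⟨inl_lt.2 h2.1, ?_⟩, inl_lt.2 h3, ⟨?_, ?_⟩, ⟨?_, ?_⟩, ⟨?_, ?_⟩⟩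
  · intro y hy1 hy2
    rcases cases_lex y with ⟨p, rfl⟩ | ⟨k, rfl⟩
    · exact h2.2 (inl_lt.1 hy1) (inl_lt.1 hy2)
    · exact not_inr_le c k hy2.le
  all_goals rwa [inl_le]

end

/-! ### The cardinality of the example -/

/-- Codes for the points of the example. -/
abbrev Code : Type := (Bool ⊕ ((ℕ × Bool) × EReal)) ⊕
  (((ℕ × Bool) × EReal) ⊕ ((ℕ × Bool) × (ℕ × Bool) × EReal × Bool))

/-- The coding. -/
noncomputable def code : Q → Code
  | Q.bot => Sum.inl (Sum.inl false)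
  | Q.top => Sum.inl (Sum.inl true)
  | Q.lo a t => Sum.inl (Sum.inr (a, t))
  | Q.up a t => Sum.inr (Sum.inl (a, t))
  | Q.st a b t s => Sum.inr (Sum.inr (a, b, t, s))

theorem code_injective : Function.Injective code := by
  intro x y hxy
  cases x <;> cases y <;> simp_all [code]

theorem prod_le {A B : Type} (hA : #A ≤ 𝔠) (hB : #B ≤ 𝔠) : #(A × B) ≤ 𝔠 := by
  rw [mk_prod, lift_id, lift_id]
  exact mul_le_of_le aleph0_le_continuum hA hB

theorem sum_le {A B : Type} (hA : #A ≤ 𝔠) (hB : #B ≤ 𝔠) : #(A ⊕ B) ≤ 𝔠 := by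
  rw [mk_sum, lift_id, lift_id]
  exact add_le_of_le aleph0_le_continuum hA hB

theorem mk_Q_le : #Q ≤ 𝔠 := by
  refine (mk_le_of_injective code_injective).trans ?_
  have h1 : (1 : Cardinal.{0}) ≤ 𝔠 := one_lt_aleph0.le.trans aleph0_le_continuum
  have hE : #EReal ≤ 𝔠 := by
    have h2 : #EReal = #(Option (Option ℝ)) := rfl
    rw [h2, mk_option, mk_option, mk_real]
    exact add_le_of_le aleph0_le_continuum (add_le_of_le aleph0_le_continuum le_rfl h1) h1
  have hN : #(ℕ × Bool) ≤ 𝔠 := mk_le_aleph0.trans aleph0_le_continuum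
  have hB : #Bool ≤ 𝔠 := mk_le_aleph0.trans aleph0_le_continuum
  exact sum_le (sum_le hB (prod_le hN hE)) (sum_le (prod_le hN hE)
    (prod_le hN (prod_le hN (prod_le hE hB))))

end Pool.Agent.Y767.MC
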